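import Mathlib
import Pool.Agent.TH118.MT.Base

/-!
# The Lie algebra of the Mumford-Tate group: definitions, derivations of multilinear forms
-/

set_option autoImplicit false

namespace Pool.Agent.W5h23.Four

open Module TensorProduct Pool.Agent.H204R3.GP Pool.Agent.H204R3.SP Pool.Agent.TH118.MT

section der

variable {k V κ : Type} [Field k] [AddCommGroup V] [Module k V] [Fintype κ] [DecidableEq κ]

/-- The action of an endomorphism on a multilinear form, as an element of the Lie algebra. -/
noncomputable def der (X : End k V) (φ : MultilinearMap k (fun _ : κ => V) k) :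
    MultilinearMap k (fun _ : κ => V) k :=
  ∑ l, φ.compLinearMap (fun i => if i = l then X else LinearMap.id)

theorem der_apply (X : End k V) (φ : MultilinearMap k (fun _ : κ => V) k) (v : κ → V) :
    der X φ v = ∑ l, φ (Function.update v l (X (v l))) := by
  unfold der
  rw [MultilinearMap.sum_apply]
  refine Finset.sum_congr rfl fun l _ => ?_
  rw [MultilinearMap.compLinearMap_apply]
  congr 1
  funext i
  by_cases h : i = l
  · subst h
    rw [if_pos rfl, Function.update_self]
  · rw [if_neg h, Function.update_of_ne h, LinearMap.id_apply]

theorem der_add_left (X Y : End k V) (φ : MultilinearMap k (fun _ : κ => V) k) :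
    der (X + Y) φ = der X φ + der Y φ := by
  refine MultilinearMap.ext fun v => ?_
  rw [MultilinearMap.add_apply, der_apply, der_apply, der_apply, ← Finset.sum_add_distrib]
  refine Finset.sum_congr rfl fun l _ => ?_
  rw [LinearMap.add_apply, MultilinearMap.map_update_add]

theorem der_smul_left (c : k) (X : End k V) (φ : MultilinearMap k (fun _ : κ => V) k) :
    der (c • X) φ = c • der X φ := by
  refine MultilinearMap.ext fun v => ?_
  rw [MultilinearMap.smul_apply, der_apply, der_apply, Finset.smul_sum]
  refine Finset.sum_congr rfl fun l _ => ?_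
  rw [LinearMap.smul_apply, MultilinearMap.map_update_smul]

theorem der_add_right (X : End k V) (φ ψ : MultilinearMap k (fun _ : κ => V) k) :
    der X (φ + ψ) = der X φ + der X ψ := by
  refine MultilinearMap.ext fun v => ?_
  simp only [MultilinearMap.add_apply, der_apply, ← Finset.sum_add_distrib]

theorem der_smul_right (c : k) (X : End k V) (φ : MultilinearMap k (fun _ : κ => V) k) :
    der X (c • φ) = c • der X φ := by
  refine MultilinearMap.ext fun v => ?_
  simp only [MultilinearMap.smul_apply, der_apply, Finset.smul_sum]

theorem der_zero_right (X : End k V) : der X (0 : MultilinearMap k (fun _ : κ => V) k) = 0 := by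
  refine MultilinearMap.ext fun v => ?_
  simp only [MultilinearMap.zero_apply, der_apply, Finset.sum_const_zero]

theorem der_one (φ : MultilinearMap k (fun _ : κ => V) k) :
    der (1 : End k V) φ = (Fintype.card κ : k) • φ := by
  refine MultilinearMap.ext fun v => ?_
  rw [der_apply, MultilinearMap.smul_apply]
  simp only [Module.End.one_apply, Function.update_eq_self, Finset.sum_const, Finset.card_univ,
    nsmul_eq_mul, smul_eq_mul]

end der

section defs

variable {k V Γ : Type} [Field k] [CharZero k] [AddCommGroup V] [Module k V] [Group Γ]
  {W T : Type} [AddCommGroup W] [Module ℚ W] [AddCommGroup T] [Module ℂ T]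

/-- The endomorphism `X` of `V = k ⊗ H_1(A, ℚ)`, with the action `μ` on the Tate twist, is in the Lie
algebra (over `k`) of the Mumford-Tate group of `A`: it kills all Hodge classes, i.e. it
acts on the Hodge classes in the space of the multilinear forms on `V` in `2 m` variables, twisted `m`
times, as on the trivial representation. -/
def InLieMT (per : W →+ T) (comp : W →+ V) (X : End k V) (μ : k) : Prop :=
  ∀ (m : ℕ), ∀ φ ∈ HodgeSpan (k := k) per comp m, ∀ v,
    ∑ l, φ (Function.update v l (X (v l))) = m * μ * φ v

/-- The endomorphism `X` of `V`, with the action `μ` on the Tate twist, kills all Tate classes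
in the tensor powers of the first cohomology group. -/
def KillsTate (ρ : Representation k Γ V) (χ : Γ →* k) (X : End k V) (μ : k) : Prop :=
  ∀ (m : ℕ) (φ : MultilinearMap k (fun _ : Fin m × Fin 2 => V) k), IsTateTensor ρ χ m φ → ∀ v,
    ∑ l, φ (Function.update v l (X (v l))) = m * μ * φ v

/-- `(a, b, c, d)` as a family of vectors indexed by two pairs. -/
def quad {V : Type} (a b c d : V) : Fin 2 × Fin 2 → V := fun p => ![![a, b], ![c, d]] p.1 p.2

/-- The form `φ` in four variables is a symmetric form on the symmetric square of `V`: it is an
element of `Sym² (Sym² H¹)`. -/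
def IsSymSym (φ : MultilinearMap k (fun _ : Fin 2 × Fin 2 => V) k) : Prop :=
  ∀ a b c d, φ (quad a b c d) = φ (quad b a c d) ∧ φ (quad a b c d) = φ (quad c d a b)

/-- The Mumford-Tate conjecture for the classes of codimension two in `Sym² (Sym² H¹(A)) (2)`, a
part of `H⁴(A⁴)(2)`: the Tate classes are linear combinations of Hodge classes. -/
def SymSymClasses (per : W →+ T) (comp : W →+ V) (ρ : Representation k Γ V) (χ : Γ →* k) : Prop :=
  ∀ φ : MultilinearMap k (fun _ : Fin 2 × Fin 2 => V) k, IsTateTensor ρ χ 2 φ → IsSymSym φ →
    φ ∈ HodgeSpan (k := k) per comp 2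

/-- The theorem on the centre: the centre of the Lie algebra of the Mumford-Tate group is contained in
the Lie algebra of the `ℓ`-adic monodromy group (it kills all Tate classes). -/
def CentreOfLieAlgebra (per : W →+ T) (comp : W →+ V) (ρ : Representation k Γ V) (χ : Γ →* k) :
    Prop :=
  ∀ (Z : End k V) (μ : k), InLieMT per comp Z μ →
    (∀ (X : End k V) (ν : k), InLieMT per comp X ν → X * Z = Z * X) → KillsTate ρ χ Z μ

theorem inLieMT_iff {per : W →+ T} {comp : W →+ V} {X : End k V} {μ : k} :
    InLieMT per comp X μ ↔ ∀ (m : ℕ), ∀ φ ∈ HodgeSpan (k := k) per comp m,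
      der X φ = ((m : k) * μ) • φ := by
  constructor
  · intro h m φ hφ
    refine MultilinearMap.ext fun v => ?_
    rw [der_apply, h m φ hφ v, MultilinearMap.smul_apply, smul_eq_mul]
  · intro h m φ hφ v
    have h1 := congrArg (fun F : MultilinearMap k (fun _ : Fin m × Fin 2 => V) k => F v) (h m φ hφ)
    simp only [der_apply, MultilinearMap.smul_apply, smul_eq_mul] at h1
    exact h1

end defs

end Pool.Agent.W5h23.Four
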