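import Mathlib
import Pool.Agent.W5h23.Four.Mult

/-!
# The Lie algebra of the Tate tensors: multipliers
-/

set_option autoImplicit false

namespace Pool.Agent.W5h23.Four

open Module TensorProduct Pool.Agent.H204R3.GP Pool.Agent.Y114.RM Pool.Agent.H50.FT
  Pool.Agent.R913.Adj Pool.Agent

section mult

variable {k : Type} [Field k] {V : Type} [AddCommGroup V] [Module k V] [FiniteDimensional k V]
  {Γ : Type} [Group Γ] {ρ : Representation k Γ V} {χ : Γ →* k}
  (ω : V →ₗ[k] V →ₗ[k] k) (hl : ∀ u, (∀ v, ω u v = 0) → u = 0)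
  (hω : ∀ s u v, ω (ρ s u) (ρ s v) = χ s * ω u v)

/-- the product of two copies of the form -/
def om2 : MultilinearMap k (fun _ : Fin 2 × Fin 2 => V) k :=
  quadOf (fun a b c d => ω a c * ω b d)
    (fun b c d => ⟨fun x y => by rw [map_add, LinearMap.add_apply, add_mul],
      fun r x => by rw [map_smul, LinearMap.smul_apply, smul_mul_assoc]⟩)
    (fun a c d => ⟨fun x y => by rw [map_add, LinearMap.add_apply, mul_add],
      fun r x => by rw [map_smul, LinearMap.smul_apply, mul_smul_comm]⟩)
    (fun a b d => ⟨fun x y => by rw [map_add, add_mul],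
      fun r x => by rw [map_smul, smul_mul_assoc]⟩)
    (fun a b c => ⟨fun x y => by rw [map_add, mul_add],
      fun r x => by rw [map_smul, mul_smul_comm]⟩)

omit [FiniteDimensional k V] in
theorem om2_apply (x : Fin 2 × Fin 2 → V) :
    om2 ω x = ω (x (0, 0)) (x (1, 0)) * ω (x (0, 1)) (x (1, 1)) := rfl

omit [FiniteDimensional k V] in
include hω in
theorem om2_tate : IsTateTensor ρ χ 2 (om2 ω) := by
  refine ⟨⊤, inferInstance, fun s _ v => ?_⟩
  rw [om2_apply, om2_apply, hω, hω]
  ring

include hω hl in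
theorem exists_mult {Y : End k V} (hY : Y ∈ LT ρ) :
    ∃ μ : k, ∀ x y, ω (Y x) y + ω x (Y y) = μ * ω x y := by
  by_cases hV : ∃ a b, ω a b ≠ 0
  · obtain ⟨a, b, hab⟩ := hV
    have h1 : ∀ x y, (ω (Y x) y + ω x (Y y)) * ω a b =
        (ω (adj ω hl Y a) b + ω a (adj ω hl Y b)) * ω x y := by
      intro x y
      have h2 := kills_trans ω hl hω hY (om2_tate ω hω) (fun p => ![![x, a], ![y, b]] p.1 p.2)
      rw [Fintype.sum_prod_type] at h2
      simp only [Fin.sum_univ_two, om2_apply] at h2
      simp [Function.update] at h2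
      linear_combination h2
    refine ⟨(ω (adj ω hl Y a) b + ω a (adj ω hl Y b)) / ω a b, fun x y => ?_⟩
    have h2 := h1 x y
    field_simp
    linear_combination h2
  · push_neg at hV
    exact ⟨0, fun x y => by rw [hV, hV, zero_mul, add_zero]⟩

include hω hl in
/-- an endomorphism which kills the Tate tensors kills the Tate classes -/
theorem kills_of_mem {Y : End k V} (hY : Y ∈ LT ρ) {μ : k}
    (hμ : ∀ x y, ω (Y x) y + ω x (Y y) = μ * ω x y) {m : ℕ}
    (φ : MultilinearMap k (fun _ : Fin m × Fin 2 => V) k) (hφ : IsTateTensor ρ χ m φ)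
    (v : Fin m × Fin 2 → V) :
    ∑ l, φ (Function.update v l (Y (v l))) = m * μ * φ v := by
  have hadj : ∀ x, adj ω hl Y x = μ • x - Y x := by
    intro x
    rw [← sub_eq_zero]
    refine hl _ fun y => ?_
    rw [map_sub, map_sub, map_smul, LinearMap.sub_apply, LinearMap.sub_apply, LinearMap.smul_apply,
      adj_form, smul_eq_mul, ← hμ]
    ring
  have h1 := kills_trans ω hl hω hY hφ v
  have h2 : ∀ p : Fin m × Fin 2, φ (Function.update v p
      (if p.2 = 0 then Y (v p) else -(adj ω hl Y (v p)))) =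
      φ (Function.update v p (Y (v p))) - (if p.2 = 0 then 0 else μ) * φ v := by
    intro p
    by_cases hp : p.2 = 0
    · rw [if_pos hp, if_pos hp, zero_mul, sub_zero]
    · rw [if_neg hp, if_neg hp, hadj, neg_sub, MultilinearMap.map_update_sub,
        MultilinearMap.map_update_smul, Function.update_eq_self, smul_eq_mul]
  rw [Finset.sum_congr rfl fun p _ => h2 p, Finset.sum_sub_distrib, ← Finset.sum_mul] at h1
  have h3 : ∑ p : Fin m × Fin 2, (if p.2 = 0 then (0 : k) else μ) = m * μ := by
    rw [Fintype.sum_prod_type]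
    simp [Fin.sum_univ_two]
  rw [h3] at h1
  linear_combination h1

end mult

end Pool.Agent.W5h23.Four
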