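import Mathlib
import Pool.Agent.W5h23.Four.Mult2

/-!
# The projection to the Lie algebra of the Tate tensors as a Tate class in four variables
-/

set_option autoImplicit false

namespace Pool.Agent.W5h23.Four

open Module TensorProduct Pool.Agent.H204R3.GP Pool.Agent.Y114.RM Pool.Agent.H50.FT
  Pool.Agent.R913.Adj Pool.Agent

section quad

variable {k : Type} [Field k] {V : Type} [AddCommGroup V] [Module k V] [FiniteDimensional k V]
  {Γ : Type} [Group Γ] {ρ : Representation k Γ V} {χ : Γ →* k}
  (ω : V →ₗ[k] V →ₗ[k] k) (hl : ∀ u, (∀ v, ω u v = 0) → u = 0)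
  (hω : ∀ s u v, ω (ρ s u) (ρ s v) = χ s * ω u v)
  (hskew : ∀ u v, ω u v = -ω v u)

/-- the form in four variables attached to an endomorphism of the space of endomorphisms -/
noncomputable def pf (P : End k V →ₗ[k] End k V) :
    MultilinearMap k (fun _ : Fin 2 × Fin 2 => V) k :=
  quadOf (fun a b c d => ω (P (rk a (ω b)) c) d)
    (fun b c d => ⟨fun x y => by
        rw [rk_add_left, map_add, LinearMap.add_apply, map_add, LinearMap.add_apply],
      fun r x => by
        rw [rk_smul_left, map_smul, LinearMap.smul_apply, map_smul, LinearMap.smul_apply]⟩)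
    (fun a c d => ⟨fun x y => by
        rw [map_add, rk_add_right, map_add, LinearMap.add_apply, map_add, LinearMap.add_apply],
      fun r x => by
        rw [map_smul, rk_smul_right, map_smul, LinearMap.smul_apply, map_smul,
          LinearMap.smul_apply]⟩)
    (fun a b d => ⟨fun x y => by rw [map_add, map_add, LinearMap.add_apply],
      fun r x => by rw [map_smul, map_smul, LinearMap.smul_apply]⟩)
    (fun a b c => ⟨fun x y => by rw [map_add],
      fun r x => by rw [map_smul]⟩)

omit [FiniteDimensional k V] in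
theorem pf_apply (P : End k V →ₗ[k] End k V) (x : Fin 2 × Fin 2 → V) :
    pf ω P x = ω (P (rk (x (0, 0)) (ω (x (0, 1)))) (x (1, 0))) (x (1, 1)) := rfl

omit [FiniteDimensional k V] in
theorem pf_quad (P : End k V →ₗ[k] End k V) (a b c d : V) :
    pf ω P (quad a b c d) = ω (P (rk a (ω b)) c) d := rfl

omit [FiniteDimensional k V] in
include hω in
theorem pf_tate {P : End k V →ₗ[k] End k V}
    (hP : ∀ γ R, P (AdE (ρ γ) (ρ γ⁻¹) R) = AdE (ρ γ) (ρ γ⁻¹) (P R)) :
    IsTateTensor ρ χ 2 (pf ω P) := by
  refine ⟨⊤, inferInstance, fun s _ v => ?_⟩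
  rw [pf_apply, pf_apply]
  have hmi : ∀ x, ρ s⁻¹ (ρ s x) = x := fun x => by
    rw [← Module.End.mul_apply, ← map_mul, inv_mul_cancel, map_one, Module.End.one_apply]
  have him : ∀ x, ρ s (ρ s⁻¹ x) = x := fun x => by
    rw [← Module.End.mul_apply, ← map_mul, mul_inv_cancel, map_one, Module.End.one_apply]
  have h1 : rk (ρ s (v (0, 0))) (ω (ρ s (v (0, 1)))) =
      χ s • AdE (ρ s) (ρ s⁻¹) (rk (v (0, 0)) (ω (v (0, 1)))) := by
    refine LinearMap.ext fun y => ?_
    rw [rk_apply, LinearMap.smul_apply, AdE_apply]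
    change _ = χ s • ρ s (ω (v (0, 1)) (ρ s⁻¹ y) • v (0, 0))
    conv_lhs => rw [← him y, hω]
    rw [map_smul, smul_smul]
  rw [h1, map_smul, hP, LinearMap.smul_apply, map_smul, LinearMap.smul_apply, AdE_apply]
  change χ s • ω (ρ s (P (rk (v (0, 0)) (ω (v (0, 1)))) (ρ s⁻¹ (ρ s (v (1, 0)))))) (ρ s (v (1, 1))) = _
  rw [hmi, hω, smul_eq_mul]
  ring

include hl in
/-- an endomorphism which multiplies the form commutes with `P` -/
theorem pf_comm {P : End k V →ₗ[k] End k V} {X : End k V} {μ : k}
    (hμ : ∀ x y, ω (X x) y + ω x (X y) = μ * ω x y)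
    (hX : ∀ v, ∑ l, pf ω P (Function.update v l (X (v l))) = (2 : ℕ) * μ * pf ω P v) (R : End k V) :
    P (X * R - R * X) = X * P R - P R * X := by
  have h1 : P ∘ₗ adE X = adE X ∘ₗ P := by
    refine ext_rk fun a f => ?_
    obtain ⟨b, rfl⟩ : ∃ b, ω b = f := ⟨(toD ω hl).symm f, LinearMap.ext fun v => toD_symm ω hl f v⟩
    rw [LinearMap.comp_apply, LinearMap.comp_apply, adE_apply, adE_apply]
    refine LinearMap.ext fun c => ?_
    rw [← sub_eq_zero]
    refine hl _ fun d => ?_
    have h2 := hX (quad a b c d)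
    rw [Fintype.sum_prod_type] at h2
    simp only [Fin.sum_univ_two, pf_apply] at h2
    simp only [quad, Function.update_self, ne_eq, Function.update_of_ne, Prod.mk.injEq,
      not_true_eq_false, not_false_eq_true, false_and, and_false, and_true, true_and,
      one_ne_zero, zero_ne_one] at h2
    simp only [Matrix.cons_val_zero, Matrix.cons_val_one] at h2
    have h3 : rk (X a) (ω b) = X * rk a (ω b) := (mul_rk X a (ω b)).symm
    have h4 : rk a (ω (X b)) = μ • rk a (ω b) - rk a (ω b) * X := by
      refine LinearMap.ext fun y => ?_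
      rw [rk_apply, LinearMap.sub_apply, LinearMap.smul_apply, Module.End.mul_apply, rk_apply,
        rk_apply, smul_smul, ← sub_smul, ← hμ, add_sub_cancel_right]
    rw [h3, h4, map_sub, map_smul] at h2
    have h5 := hμ (P (rk a (ω b)) c) d
    simp only [LinearMap.sub_apply, LinearMap.smul_apply, map_sub, map_smul, smul_eq_mul,
      Module.End.mul_apply, Nat.cast_ofNat] at h2 ⊢
    linear_combination h2 - h5
  exact LinearMap.congr_fun h1 R

theorem trace_rk (x : V) (f : Dual k V) : LinearMap.trace k V (rk x f) = f x :=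
  LinearMap.trace_smulRight f x

include hskew in
theorem trace_mul_rk_comm {Y : End k V}
    (hY : ∀ x y, ω (Y x) y + ω x (Y y) = 0) (a b : V) :
    LinearMap.trace k V (Y * rk a (ω b)) = LinearMap.trace k V (Y * rk b (ω a)) := by
  rw [mul_rk, mul_rk, trace_rk, trace_rk]
  have h1 := hY a b
  have h2 := hskew (Y a) b
  linear_combination -h1 + h2

variable {L : Submodule k (End k V)} (hnd : NonDeg L)
  (hsp : ∀ Y ∈ L, ∀ x y, ω (Y x) y + ω x (Y y) = 0)

include hskew hsp in
theorem pf_symm : IsSymSym (pf ω (oproj L hnd)) := by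
  intro a b c d
  rw [pf_quad, pf_quad, pf_quad]
  constructor
  · have h1 : rk a (ω b) - rk b (ω a) ∈ (trf k V).orthogonal L := by
      rw [LinearMap.BilinForm.mem_orthogonal_iff]
      intro Y hY
      change LinearMap.trace k V (Y * (rk a (ω b) - rk b (ω a))) = 0
      rw [mul_sub, map_sub, trace_mul_rk_comm ω hskew (hsp Y hY), sub_self]
    have h2 := oproj_perp hnd h1
    rw [map_sub, sub_eq_zero] at h2
    rw [h2]
  · have h1 : ∀ a b c d, ω (oproj L hnd (rk a (ω b)) c) d =
        -LinearMap.trace k V (oproj L hnd (rk a (ω b)) * oproj L hnd (rk c (ω d))) := by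
      intro a b c d
      have h2 : LinearMap.trace k V (oproj L hnd (rk a (ω b)) * (rk c (ω d) -
          oproj L hnd (rk c (ω d)))) = 0 :=
        (LinearMap.BilinForm.mem_orthogonal_iff.1 (sub_oproj hnd (rk c (ω d)))) _ (oproj_mem hnd _)
      rw [mul_sub, map_sub, mul_rk, trace_rk, sub_eq_zero] at h2
      rw [← h2]
      exact hskew _ _
    rw [h1 a b c d, h1 c d a b, LinearMap.trace_mul_comm]

end quad

end Pool.Agent.W5h23.Four
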