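import Mathlib
import Pool.Agent.W5h23.Four.Basic

/-!
# Real multilinear forms invariant under the circle
-/

set_option autoImplicit false

namespace Pool.Agent.W5h23.Four

open Module

section cont

variable {κ : Type} [Fintype κ] [DecidableEq κ] {n : ℕ}

theorem multilinear_continuous (Ψ : MultilinearMap ℝ (fun _ : κ => Fin n → ℝ) ℝ) :
    Continuous Ψ := by
  have h : ∀ x : κ → Fin n → ℝ, Ψ x = ∑ I : κ → Fin n, (∏ l, x l (I l)) •
      Ψ (fun l => Pi.single (I l) (1 : ℝ)) := by
    intro x
    have h1 : x = fun l => ∑ j, x l j • (Pi.single j (1 : ℝ) : Fin n → ℝ) := by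
      funext l
      exact pi_eq_sum_univ' (x l)
    conv_lhs => rw [h1]
    rw [MultilinearMap.map_sum]
    refine Finset.sum_congr rfl fun I _ => ?_
    rw [MultilinearMap.map_smul_univ]
  have h2 : (Ψ : (κ → Fin n → ℝ) → ℝ) = fun x => ∑ I : κ → Fin n, (∏ l, x l (I l)) •
      Ψ (fun l => Pi.single (I l) (1 : ℝ)) := funext h
  rw [h2]
  fun_prop

end cont

section circle

variable {T : Type} [AddCommGroup T] [Module ℂ T] [FiniteDimensional ℝ T]
  {κ : Type} [Fintype κ] [DecidableEq κ] (Ψ : MultilinearMap ℝ (fun _ : κ => T) ℝ)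

/-- the derivative of a multilinear form along the circle -/
theorem hasDerivAt_circle (u : κ → T) (θ : ℝ) :
    HasDerivAt (fun θ : ℝ => Ψ (fun l => Complex.exp (θ * Complex.I) • u l))
      (∑ l, Ψ (Function.update (fun l => Complex.exp (θ * Complex.I) • u l) l
        (Complex.I • (Complex.exp (θ * Complex.I) • u l)))) θ := by
  let e : T ≃ₗ[ℝ] (Fin (finrank ℝ T) → ℝ) := (finBasis ℝ T).equivFun
  let Ψ' : MultilinearMap ℝ (fun _ : κ => (Fin (finrank ℝ T) → ℝ)) ℝ :=
    Ψ.compLinearMap (fun _ => (e.symm : (Fin (finrank ℝ T) → ℝ) →ₗ[ℝ] T))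
  let g : ContinuousMultilinearMap ℝ (fun _ : κ => (Fin (finrank ℝ T) → ℝ)) ℝ :=
    ⟨Ψ', multilinear_continuous Ψ'⟩
  have hg : ∀ w : κ → T, g (fun l => e (w l)) = Ψ w := by
    intro w
    change Ψ' (fun l => e (w l)) = Ψ w
    change Ψ (fun l => e.symm (e (w l))) = Ψ w
    simp only [LinearEquiv.symm_apply_apply]
  have hexp : ∀ (θ : ℝ) (w : T), Complex.exp (θ * Complex.I) • w =
      Real.cos θ • w + Real.sin θ • (Complex.I • w) := by
    intro θ w
    rw [Complex.exp_mul_I, add_smul, mul_smul, ← Complex.ofReal_cos, ← Complex.ofReal_sin]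
    rfl
  have hpath : HasDerivAt (fun (θ : ℝ) (l : κ) => e (Complex.exp (θ * Complex.I) • u l))
      (fun l => e (Complex.I • (Complex.exp (θ * Complex.I) • u l))) θ := by
    rw [hasDerivAt_pi]
    intro l
    have h1 : (fun θ : ℝ => e (Complex.exp (θ * Complex.I) • u l)) =
        fun θ : ℝ => Real.cos θ • e (u l) + Real.sin θ • e (Complex.I • u l) := by
      funext θ
      rw [hexp, map_add, map_smul, map_smul]
    have h2 : e (Complex.I • (Complex.exp (θ * Complex.I) • u l)) =
        (-Real.sin θ) • e (u l) + Real.cos θ • e (Complex.I • u l) := by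
      have h3 : Complex.I • (Complex.exp (θ * Complex.I) • u l) =
          (-Real.sin θ) • u l + Real.cos θ • (Complex.I • u l) := by
        have h4 : (-Real.sin θ) • u l = ((-Real.sin θ : ℝ) : ℂ) • u l := rfl
        have h5 : Real.cos θ • (Complex.I • u l) = ((Real.cos θ : ℝ) : ℂ) • (Complex.I • u l) := rfl
        rw [h4, h5, smul_smul, smul_smul, ← add_smul, Complex.exp_mul_I]
        congr 1
        rw [Complex.ofReal_neg, Complex.ofReal_sin, Complex.ofReal_cos]
        linear_combination (Complex.sin θ) * Complex.I_mul_I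
      rw [h3, map_add, map_smul, map_smul]
    rw [h1, h2]
    exact ((Real.hasDerivAt_cos θ).smul_const _).add ((Real.hasDerivAt_sin θ).smul_const _)
  have h1 := (g.hasFDerivAt (fun l => e (Complex.exp (θ * Complex.I) • u l))).comp_hasDerivAt θ hpath
  have h2 : (g ∘ fun (θ : ℝ) (l : κ) => e (Complex.exp (θ * Complex.I) • u l)) =
      fun θ : ℝ => Ψ (fun l => Complex.exp (θ * Complex.I) • u l) := by
    funext θ
    exact hg _
  rw [h2] at h1
  have h3 : ∑ l, Ψ (Function.update (fun l => Complex.exp (θ * Complex.I) • u l) l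
        (Complex.I • (Complex.exp (θ * Complex.I) • u l))) =
      g.linearDeriv (fun l => e (Complex.exp (θ * Complex.I) • u l))
        (fun l => e (Complex.I • (Complex.exp (θ * Complex.I) • u l))) := by
    rw [ContinuousMultilinearMap.linearDeriv_apply]
    refine Finset.sum_congr rfl fun l _ => ?_
    rw [← hg]
    congr 1
    funext i
    by_cases h : i = l
    · subst h
      rw [Function.update_self, Function.update_self]
    · rw [Function.update_of_ne h, Function.update_of_ne h]
  rw [h3]
  exact h1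

/-- A real multilinear form is invariant under the circle if and only if it is killed by the
multiplication by `i`. -/
theorem circle_iff : (∀ z : ℂ, ‖z‖ = 1 → ∀ u : κ → T, Ψ (fun l => z • u l) = Ψ u) ↔
    ∀ u : κ → T, ∑ l, Ψ (Function.update u l (Complex.I • u l)) = 0 := by
  constructor
  · intro h u
    have h1 := hasDerivAt_circle Ψ u 0
    have h2 : (fun θ : ℝ => Ψ (fun l => Complex.exp (θ * Complex.I) • u l)) = fun _ => Ψ u := by
      funext θ
      exact h _ (Complex.norm_exp_ofReal_mul_I θ) u
    rw [h2] at h1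
    have h3 := h1.unique (hasDerivAt_const (0 : ℝ) (Ψ u))
    simp only [Complex.ofReal_zero, zero_mul, Complex.exp_zero, one_smul] at h3
    exact h3
  · intro h z hz u
    have h1 : ∀ θ : ℝ, HasDerivAt (fun θ : ℝ => Ψ (fun l => Complex.exp (θ * Complex.I) • u l))
        0 θ := by
      intro θ
      have h2 := hasDerivAt_circle Ψ u θ
      rwa [h (fun l => Complex.exp (θ * Complex.I) • u l)] at h2
    have h3 := is_const_of_deriv_eq_zero (fun θ => (h1 θ).differentiableAt)
      (fun θ => (h1 θ).deriv) (Complex.arg z) 0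
    have h4 : Complex.exp (Complex.arg z * Complex.I) = z := by
      have h5 := Complex.norm_mul_exp_arg_mul_I z
      rwa [hz, Complex.ofReal_one, one_mul] at h5
    simp only [h4, Complex.ofReal_zero, zero_mul, Complex.exp_zero, one_smul] at h3
    exact h3

end circle

end Pool.Agent.W5h23.Four
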