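import Mathlib
import Pool.Agent.W5h23.Four.Circle

/-!
# The tensors killed by the Lie algebra of the Mumford-Tate group are the Hodge classes
-/

set_option autoImplicit false

namespace Pool.Agent.W5h23.Four

open Module TensorProduct Pool.Agent.H204R3.GP Pool.Agent.H204R3.SP Pool.Agent.TH118.MT

section pr

variable {K : Type} [Field K] [CharZero K] {W : Type} [AddCommGroup W] [Module ℚ W]

/-- the map from `K ⊗ W` to `W` given by a linear form on `K` -/
noncomputable def pr (π : K →ₗ[ℚ] ℚ) : K ⊗[ℚ] W →ₗ[ℚ] W :=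
  (TensorProduct.lid ℚ W).toLinearMap ∘ₗ π.rTensor W

theorem pr_tmul (π : K →ₗ[ℚ] ℚ) (r : K) (w : W) : pr π (r ⊗ₜ[ℚ] w) = π r • w := by
  change (TensorProduct.lid ℚ W) (π.rTensor W (r ⊗ₜ[ℚ] w)) = π r • w
  rw [LinearMap.rTensor_tmul, TensorProduct.lid_tmul]

theorem pr_form {κ : Type} [Fintype κ] [DecidableEq κ] (π : K →ₗ[ℚ] ℚ)
    (F : MultilinearMap K (fun _ : κ => K ⊗[ℚ] W) K) (f : MultilinearMap ℚ (fun _ : κ => W) ℚ)
    (h : ∀ w : κ → W, F (fun i => (1 : K) ⊗ₜ[ℚ] w i) = ((f w : ℚ) : K)) (w : κ → W) (l : κ)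
    (t : K ⊗[ℚ] W) :
    π (F (Function.update (fun i => (1 : K) ⊗ₜ[ℚ] w i) l t)) =
      f (Function.update w l (pr π t)) := by
  induction t with
  | zero => rw [MultilinearMap.map_update_zero, map_zero, map_zero, MultilinearMap.map_update_zero]
  | add s t hs ht =>
    rw [MultilinearMap.map_update_add, map_add, map_add, MultilinearMap.map_update_add, hs, ht]
  | tmul r w' =>
    have h1 : r ⊗ₜ[ℚ] w' = r • ((1 : K) ⊗ₜ[ℚ] w') := by
      rw [TensorProduct.smul_tmul', smul_eq_mul, mul_one]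
    have h2 : Function.update (fun i => (1 : K) ⊗ₜ[ℚ] w i) l ((1 : K) ⊗ₜ[ℚ] w') =
        fun i => (1 : K) ⊗ₜ[ℚ] (Function.update w l w') i := by
      funext i
      by_cases hi : i = l
      · subst hi
        rw [Function.update_self, Function.update_self]
      · rw [Function.update_of_ne hi, Function.update_of_ne hi]
    rw [h1, MultilinearMap.map_update_smul, h2, h, ← h1, pr_tmul, MultilinearMap.map_update_smul,
      smul_eq_mul, smul_eq_mul]
    have h3 : r * ((f (Function.update w l w') : ℚ) : K) = (f (Function.update w l w')) • r := by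
      rw [Algebra.smul_def, mul_comm, eq_ratCast]
    rw [h3, map_smul, smul_eq_mul, mul_comm]

end pr

section real

variable {W T : Type} [AddCommGroup W] [Module ℚ W] [AddCommGroup T]
  [Module ℂ T] {per : W →+ T} (e : ℝ ⊗[ℚ] W ≃ₗ[ℝ] T)

/-- the coordinates of the multiplication by `i` -/
noncomputable def coJ (π : ℝ →ₗ[ℚ] ℚ) : End ℚ W where
  toFun w := pr π (e.symm (Complex.I • e ((1 : ℝ) ⊗ₜ[ℚ] w)))
  map_add' w w' := by
    rw [TensorProduct.tmul_add, map_add, smul_add, map_add, map_add]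
  map_smul' c w := by
    have h1 : (1 : ℝ) ⊗ₜ[ℚ] (c • w) = (c : ℝ) • ((1 : ℝ) ⊗ₜ[ℚ] w) := by
      rw [TensorProduct.tmul_smul, TensorProduct.smul_tmul', TensorProduct.smul_tmul', smul_eq_mul,
        mul_one, Algebra.smul_def, mul_one, eq_ratCast]
    have h2 : Complex.I • ((c : ℝ) • e ((1 : ℝ) ⊗ₜ[ℚ] w)) =
        (c : ℝ) • (Complex.I • e ((1 : ℝ) ⊗ₜ[ℚ] w)) := smul_comm _ _ _
    have h3 : (c : ℝ) • e.symm (Complex.I • e ((1 : ℝ) ⊗ₜ[ℚ] w)) =
        c • e.symm (Complex.I • e ((1 : ℝ) ⊗ₜ[ℚ] w)) := by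
      have h4 := algebraMap_smul ℝ c (e.symm (Complex.I • e ((1 : ℝ) ⊗ₜ[ℚ] w)))
      rw [eq_ratCast] at h4
      exact h4
    rw [h1, LinearEquiv.map_smul e, h2, LinearEquiv.map_smul e.symm, h3, LinearMap.map_smul,
      RingHom.id_apply]

theorem coJ_apply (π : ℝ →ₗ[ℚ] ℚ) (w : W) :
    coJ e π w = pr π (e.symm (Complex.I • e ((1 : ℝ) ⊗ₜ[ℚ] w))) := rfl

variable (he : ∀ w, e ((1 : ℝ) ⊗ₜ[ℚ] w) = per w)
include he

theorem coJ_form {κ : Type} [Fintype κ] [DecidableEq κ]
    (Ψ : MultilinearMap ℝ (fun _ : κ => T) ℝ) (ψ : MultilinearMap ℚ (fun _ : κ => W) ℚ)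
    (h : ∀ w : κ → W, Ψ (fun l => per (w l)) = ((ψ w : ℚ) : ℝ)) (π : ℝ →ₗ[ℚ] ℚ) (w : κ → W) :
    π (∑ l, Ψ (Function.update (fun l => per (w l)) l (Complex.I • per (w l)))) =
      der (coJ e π) ψ w := by
  let F : MultilinearMap ℝ (fun _ : κ => ℝ ⊗[ℚ] W) ℝ := Ψ.compLinearMap (fun _ => e.toLinearMap)
  have hF : ∀ w : κ → W, F (fun i => (1 : ℝ) ⊗ₜ[ℚ] w i) = ((ψ w : ℚ) : ℝ) := by
    intro w
    rw [← h]
    change Ψ (fun i => e ((1 : ℝ) ⊗ₜ[ℚ] w i)) = _
    simp only [he]
  rw [map_sum, der_apply]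
  refine Finset.sum_congr rfl fun l _ => ?_
  rw [coJ_apply, ← pr_form π F ψ hF w l, he]
  congr 1
  change _ = Ψ (fun i => e (Function.update (fun i => (1 : ℝ) ⊗ₜ[ℚ] w i) l
    (e.symm (Complex.I • per (w l))) i))
  congr 1
  funext i
  by_cases hi : i = l
  · subst hi
    rw [Function.update_self, Function.update_self, LinearEquiv.apply_symm_apply]
  · rw [Function.update_of_ne hi, Function.update_of_ne hi, he]

/-- A rational form killed by all endomorphisms of `W` which kill all Hodge classes is a Hodge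
class. -/
theorem hodge_of_killed_rational [FiniteDimensional ℚ W] {m : ℕ}
    (ψ : MultilinearMap ℚ (fun _ : Fin m × Fin 2 => W) ℚ)
    (h : ∀ X : End ℚ W, (∀ (m' : ℕ) (ψ' : MultilinearMap ℚ (fun _ : Fin m' × Fin 2 => W) ℚ),
      IsHodgeTensor per ψ' → der X ψ' = 0) → der X ψ = 0) : IsHodgeTensor per ψ := by
  classical
  have : FiniteDimensional ℝ T := Module.Finite.equiv e
  let b₀ := finBasis ℚ W
  let Ψ : MultilinearMap ℝ (fun _ : Fin m × Fin 2 => T) ℝ :=
    (bcm (Ω := ℝ) b₀ ψ).compLinearMap (fun _ => e.symm.toLinearMap)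
  have hΨ : ∀ w : Fin m × Fin 2 → W, Ψ (fun l => per (w l)) = ((ψ w : ℚ) : ℝ) := by
    intro w
    change bcm (Ω := ℝ) b₀ ψ (fun l => e.symm (per (w l))) = _
    have h1 : (fun l => e.symm (per (w l))) = fun l => (1 : ℝ) ⊗ₜ[ℚ] w l := by
      funext l
      rw [← he, LinearEquiv.symm_apply_apply]
    rw [h1, bcm_one, eq_ratCast]
  refine ⟨Ψ, hΨ, (circle_iff Ψ).2 ?_⟩
  let J : End ℝ T :=
    { toFun := fun t => Complex.I • t
      map_add' := fun s t => smul_add _ _ _
      map_smul' := fun c t => smul_comm _ _ _ }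
  suffices h1 : der J Ψ = 0 by
    intro u
    have h2 := congrArg (fun F : MultilinearMap ℝ (fun _ : Fin m × Fin 2 => T) ℝ => F u) h1
    simp only [der_apply, MultilinearMap.zero_apply] at h2
    exact h2
  let b : Basis (Fin (finrank ℚ W)) ℝ T := (b₀.baseChange ℝ).map e
  have hb : ∀ i, b i = per (b₀ i) := by
    intro i
    rw [← he]
    change e ((b₀.baseChange ℝ) i) = _
    rw [Basis.baseChange_apply]
  refine Basis.ext_multilinear (fun _ => b) fun I => ?_
  rw [der_apply, MultilinearMap.zero_apply]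
  simp only [hb]
  change ∑ l, Ψ (Function.update (fun l => per (b₀ (I l))) l (Complex.I • per (b₀ (I l)))) = 0
  rw [← Module.forall_dual_apply_eq_zero_iff ℚ]
  intro π
  rw [coJ_form e he Ψ ψ hΨ π (fun l => b₀ (I l)), h]
  · rw [MultilinearMap.zero_apply]
  · rintro m' ψ' ⟨Ψ', h1, h2⟩
    refine MultilinearMap.ext fun w => ?_
    rw [← coJ_form e he Ψ' ψ' h1 π w, (circle_iff Ψ').1 h2, map_zero, MultilinearMap.zero_apply]

end real

section span

variable {k : Type} [Field k] [CharZero k] {W T : Type} [AddCommGroup W] [Module ℚ W]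
  [FiniteDimensional ℚ W] [AddCommGroup T] [Module ℂ T] {per : W →+ T}

/-- an endomorphism of `W` which kills the Hodge classes kills them over `k` -/
theorem inLieMT_of_rational {X : End ℚ W} (h : ∀ (m : ℕ)
    (ψ : MultilinearMap ℚ (fun _ : Fin m × Fin 2 => W) ℚ), IsHodgeTensor per ψ → der X ψ = 0) :
    InLieMT per (incl k W) (X.baseChange k) 0 := by
  classical
  rw [inLieMT_iff]
  intro m φ hφ
  rw [mul_zero, zero_smul]
  induction hφ using Submodule.span_induction with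
  | zero => exact der_zero_right _
  | add φ φ' _ _ h1 h2 => rw [der_add_right, h1, h2, add_zero]
  | smul c φ _ h1 => rw [der_smul_right, h1, smul_zero]
  | mem φ hφ =>
    obtain ⟨ψ, hψ, hc⟩ := hφ
    refine Basis.ext_multilinear (fun _ => (finBasis ℚ W).baseChange k) fun I => ?_
    rw [der_apply, MultilinearMap.zero_apply]
    simp only [Basis.baseChange_apply, LinearMap.baseChange_tmul]
    have h1 : ∀ l, Function.update (fun i => (1 : k) ⊗ₜ[ℚ] (finBasis ℚ W) (I i)) l
        ((1 : k) ⊗ₜ[ℚ] X ((finBasis ℚ W) (I l))) = fun i => incl k W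
          ((Function.update (fun i => (finBasis ℚ W) (I i)) l (X ((finBasis ℚ W) (I l)))) i) := by
      intro l
      funext i
      rw [incl_apply]
      by_cases hi : i = l
      · subst hi
        rw [Function.update_self, Function.update_self]
      · rw [Function.update_of_ne hi, Function.update_of_ne hi]
    have h2 : ∑ l, φ (Function.update (fun i => (1 : k) ⊗ₜ[ℚ] (finBasis ℚ W) (I i)) l
        ((1 : k) ⊗ₜ[ℚ] X ((finBasis ℚ W) (I l)))) =
        ((der X ψ (fun i => (finBasis ℚ W) (I i)) : ℚ) : k) := by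
      rw [der_apply, Rat.cast_sum]
      refine Finset.sum_congr rfl fun l _ => ?_
      rw [h1, hc]
    rw [h2, h m ψ hψ, MultilinearMap.zero_apply, Rat.cast_zero]

/-- a form over `k` is a combination of Hodge classes if all its coordinates are Hodge classes -/
theorem mem_hodgeSpan_of_coord {m : ℕ}
    (φ : MultilinearMap k (fun _ : Fin m × Fin 2 => k ⊗[ℚ] W) k)
    (h : ∀ π : k →ₗ[ℚ] ℚ, ∀ ψ : MultilinearMap ℚ (fun _ : Fin m × Fin 2 => W) ℚ,
      (∀ w, ψ w = π (φ (fun l => (1 : k) ⊗ₜ[ℚ] w l))) → IsHodgeTensor per ψ) :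
    φ ∈ HodgeSpan per (incl k W) m := by
  classical
  let b₀ := finBasis ℚ W
  let B : Basis _ ℚ k := Basis.ofVectorSpace ℚ k
  let inc : W →ₗ[ℚ] k ⊗[ℚ] W := TensorProduct.mk ℚ k W 1
  let ψ := fun i => (B.coord i).compMultilinearMap
    ((φ.restrictScalars ℚ).compLinearMap (fun _ : Fin m × Fin 2 => inc))
  have hψ : ∀ i w, ψ i w = B.coord i (φ (fun l => (1 : k) ⊗ₜ[ℚ] w l)) := fun i w => rfl
  have hH : ∀ i, IsHodgeTensor per (ψ i) := fun i => h _ _ (hψ i)
  let S := Finset.univ.biUnion fun I : Fin m × Fin 2 → Fin (finrank ℚ W) =>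
    (B.repr (φ (fun l => (1 : k) ⊗ₜ[ℚ] b₀ (I l)))).support
  have h1 : φ = ∑ i ∈ S, B i • bcm (Ω := k) b₀ (ψ i) := by
    refine Basis.ext_multilinear (fun _ => b₀.baseChange k) fun I => ?_
    rw [MultilinearMap.sum_apply]
    simp only [Basis.baseChange_apply, MultilinearMap.smul_apply]
    have h2 := B.linearCombination_repr (φ (fun l => (1 : k) ⊗ₜ[ℚ] b₀ (I l)))
    have hsub : (B.repr (φ (fun l => (1 : k) ⊗ₜ[ℚ] b₀ (I l)))).support ⊆ S :=
      fun i hi => Finset.mem_biUnion.2 ⟨I, Finset.mem_univ _, hi⟩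
    rw [Finsupp.linearCombination_apply, Finsupp.sum_of_support_subset _ hsub
      (fun i a => a • B i) (fun i _ => zero_smul _ _)] at h2
    rw [← h2]
    refine Finset.sum_congr rfl fun i _ => ?_
    rw [bcm_one, hψ, Basis.coord_apply, smul_eq_mul, Algebra.smul_def, mul_comm]
  rw [h1]
  refine Submodule.sum_mem _ fun i _ => Submodule.smul_mem _ _ (Submodule.subset_span
    ⟨ψ i, hH i, fun v => ?_⟩)
  change bcm (Ω := k) b₀ (ψ i) (fun l => (1 : k) ⊗ₜ[ℚ] v l) = _
  rw [bcm_one, eq_ratCast]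

/-- **The tensors killed by the Lie algebra of the Mumford-Tate group are combinations of Hodge
classes.** -/
theorem mem_hodgeSpan_of_killed (e : ℝ ⊗[ℚ] W ≃ₗ[ℝ] T) (he : ∀ w, e ((1 : ℝ) ⊗ₜ[ℚ] w) = per w)
    {m : ℕ} (φ : MultilinearMap k (fun _ : Fin m × Fin 2 => k ⊗[ℚ] W) k)
    (h : ∀ (X : End k (k ⊗[ℚ] W)) (μ : k), InLieMT per (incl k W) X μ → ∀ v,
      ∑ l, φ (Function.update v l (X (v l))) = m * μ * φ v) :
    φ ∈ HodgeSpan per (incl k W) m := by
  classical
  refine mem_hodgeSpan_of_coord φ fun π ψ hψ => hodge_of_killed_rational e he ψ fun X hX => ?_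
  have h1 := h _ _ (inLieMT_of_rational (k := k) hX)
  refine MultilinearMap.ext fun w => ?_
  have h2 := h1 (fun l => (1 : k) ⊗ₜ[ℚ] w l)
  rw [mul_zero, zero_mul] at h2
  rw [der_apply, MultilinearMap.zero_apply]
  have h3 := congrArg π h2
  rw [map_sum, map_zero] at h3
  rw [← h3]
  refine Finset.sum_congr rfl fun l _ => ?_
  rw [hψ, LinearMap.baseChange_tmul]
  congr 2
  funext i
  by_cases hi : i = l
  · subst hi
    rw [Function.update_self, Function.update_self]
  · rw [Function.update_of_ne hi, Function.update_of_ne hi]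

end span

end Pool.Agent.W5h23.Four
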