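import Mathlib
import Pool.Agent.W5h23.Four.Descent
import Pool.Agent.W5h23.Four.Lie

/-!
# Endomorphisms of the abelian variety and the Lie algebra of the Mumford-Tate group
-/

set_option autoImplicit false

namespace Pool.Agent.W5h23.Four

open Module TensorProduct Pool.Agent.H204R3.GP Pool.Agent.H204R3.SP Pool.Agent.TH118.MT

section bil

variable {k : Type} [Field k] {V : Type} [AddCommGroup V] [Module k V]

/-- a bilinear form as a multilinear form -/
def bilOf (B : V →ₗ[k] V →ₗ[k] k) : MultilinearMap k (fun _ : Fin 1 × Fin 2 => V) k where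
  toFun v := B (v (0, 0)) (v (0, 1))
  map_update_add' := by
    intro inst v i x y
    have hi : inst = instDecidableEqProd := Subsingleton.elim _ _
    subst hi
    obtain ⟨i, j⟩ := i
    fin_cases i
    fin_cases j <;> simp [Function.update]
  map_update_smul' := by
    intro inst v i c x
    have hi : inst = instDecidableEqProd := Subsingleton.elim _ _
    subst hi
    obtain ⟨i, j⟩ := i
    fin_cases i
    fin_cases j <;> simp [Function.update]

theorem bilOf_apply (B : V →ₗ[k] V →ₗ[k] k) (v : Fin 1 × Fin 2 → V) :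
    bilOf B v = B (v (0, 0)) (v (0, 1)) := rfl

end bil

section hodge

variable {k : Type} [Field k] [CharZero k] {W T : Type} [AddCommGroup W] [Module ℚ W]
  [FiniteDimensional ℚ W] [AddCommGroup T] [Module ℂ T] {per : W →+ T}

theorem isHodge_bilOf {B : W →ₗ[ℚ] W →ₗ[ℚ] ℚ} (hB : IsHodgeBilinear per B) :
    IsHodgeTensor per (bilOf B) := by
  obtain ⟨E, h1, h2⟩ := hB
  exact ⟨bilOf E, fun v => h1 _ _, fun z hz u => h2 z hz _ _⟩

theorem bilOf_mem {B : W →ₗ[ℚ] W →ₗ[ℚ] ℚ} (hB : IsHodgeBilinear per B) :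
    bilOf (bcb k B) ∈ HodgeSpan (k := k) per (incl k W) 1 := by
  refine Submodule.subset_span ⟨bilOf B, isHodge_bilOf hB, fun v => ?_⟩
  rw [bilOf_apply, bilOf_apply, incl_apply, incl_apply, bcb_one, eq_ratCast]

theorem lieMT_bil {X : End k (k ⊗[ℚ] W)} {μ : k} (hX : InLieMT per (incl k W) X μ)
    {B : W →ₗ[ℚ] W →ₗ[ℚ] ℚ} (hB : IsHodgeBilinear per B) (x y : k ⊗[ℚ] W) :
    bcb k B (X x) y + bcb k B x (X y) = μ * bcb k B x y := by
  have h1 := hX 1 _ (bilOf_mem (k := k) hB) (fun p => ![x, y] p.2)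
  rw [Fintype.sum_prod_type] at h1
  simp only [Fin.sum_univ_two, bilOf_apply, Finset.univ_unique, Fin.default_eq_zero,
    Finset.sum_singleton] at h1
  simp [Function.update] at h1
  exact h1

variable {ω₀ : W →ₗ[ℚ] W →ₗ[ℚ] ℚ} (hω₀ : IsHodgeBilinear per ω₀)

include hω₀ in
theorem isHodge_end_form {P : W →ₗ[ℚ] W} (hP : IsHodgeEnd per P) :
    IsHodgeBilinear per (ω₀ ∘ₗ P) := by
  obtain ⟨E, h1, h2⟩ := hω₀
  obtain ⟨P', hP'⟩ := hP
  refine ⟨E ∘ₗ (P'.restrictScalars ℝ), fun x y => ?_, fun z hz u v => ?_⟩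
  · change E (P' (per x)) (per y) = _
    rw [hP', h1]
    rfl
  · change E (P' (z • u)) (z • v) = E (P' u) v
    rw [P'.map_smul, h2 z hz]

theorem bcb_comp (P : W →ₗ[ℚ] W) (x y : k ⊗[ℚ] W) :
    bcb k (ω₀ ∘ₗ P) x y = bcb k ω₀ (P.baseChange k x) y := by
  induction x with
  | zero => simp only [map_zero, LinearMap.zero_apply]
  | add x x' hx hx' => simp only [map_add, LinearMap.add_apply, hx, hx']
  | tmul a x =>
    induction y with
    | zero => simp only [map_zero]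
    | add y y' hy hy' => rw [map_add, map_add, hy, hy']
    | tmul b y => rw [LinearMap.baseChange_tmul, bcb_tmul, bcb_tmul]; rfl

include hω₀ in
/-- the Lie algebra of the Mumford-Tate group commutes with the endomorphisms of `A` -/
theorem lieMT_comm (hl : ∀ u, (∀ v, bcb k ω₀ u v = 0) → u = 0) {X : End k (k ⊗[ℚ] W)} {μ : k}
    (hX : InLieMT per (incl k W) X μ) {P : W →ₗ[ℚ] W} (hP : IsHodgeEnd per P) :
    X * P.baseChange k = P.baseChange k * X := by
  refine LinearMap.ext fun x => ?_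
  rw [← sub_eq_zero]
  refine hl _ fun y => ?_
  rw [map_sub, LinearMap.sub_apply, Module.End.mul_apply, Module.End.mul_apply]
  have h1 := lieMT_bil hX (isHodge_end_form hω₀ hP) x y
  have h2 := lieMT_bil hX hω₀ (P.baseChange k x) y
  rw [bcb_comp, bcb_comp, bcb_comp] at h1
  linear_combination h2 - h1

/-- the set of the endomorphisms of `V` induced by endomorphisms of `A` -/
def HE (k : Type) [Field k] [CharZero k] (per : W →+ T) : Set (End k (k ⊗[ℚ] W)) :=
  {P' | ∃ P₀ : W →ₗ[ℚ] W, IsHodgeEnd per P₀ ∧ ∀ w, P' (incl k W w) = incl k W (P₀ w)}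

theorem eq_baseChange {P' : End k (k ⊗[ℚ] W)} {P₀ : W →ₗ[ℚ] W}
    (h : ∀ w, P' (incl k W w) = incl k W (P₀ w)) : P' = P₀.baseChange k := by
  refine LinearMap.ext fun x => ?_
  induction x with
  | zero => rw [map_zero, map_zero]
  | add x y hx hy => rw [map_add, map_add, hx, hy]
  | tmul a w =>
    have h1 : a ⊗ₜ[ℚ] w = a • (1 : k) ⊗ₜ[ℚ] w := by
      rw [TensorProduct.smul_tmul', smul_eq_mul, mul_one]
    rw [h1, map_smul, map_smul, LinearMap.baseChange_tmul]
    exact congrArg _ (h w)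

include hω₀ in
theorem lieMT_comm_span (hl : ∀ u, (∀ v, bcb k ω₀ u v = 0) → u = 0) {X : End k (k ⊗[ℚ] W)} {μ : k}
    (hX : InLieMT per (incl k W) X μ) {Z : End k (k ⊗[ℚ] W)}
    (hZ : Z ∈ Submodule.span k (HE k per)) : X * Z = Z * X := by
  induction hZ using Submodule.span_induction with
  | zero => rw [mul_zero, zero_mul]
  | add Z Z' _ _ h1 h2 => rw [mul_add, add_mul, h1, h2]
  | smul c Z _ h1 => rw [mul_smul_comm, smul_mul_assoc, h1]
  | mem P hP =>
    obtain ⟨P₀, h1, h2⟩ := hP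
    rw [eq_baseChange h2]
    exact lieMT_comm hω₀ hl hX h1

/-- The Rosati involution is trivial on the centre of `End(A) ⊗ ℚ`: the simple factors of `A` are of
the types I, II and III of Albert. -/
def RosatiTrivialOnCentre (per : W →+ T) (ω₀ : W →ₗ[ℚ] W →ₗ[ℚ] ℚ) : Prop :=
  ∀ P : W →ₗ[ℚ] W, IsHodgeEnd per P → (∀ Q : W →ₗ[ℚ] W, IsHodgeEnd per Q → ∀ w, P (Q w) = Q (P w)) →
    ∀ x y, ω₀ (P x) y = ω₀ x (P y)

/-- the coordinates of an endomorphism of `k ⊗ W` -/
noncomputable def coE (Z : End k (k ⊗[ℚ] W)) (π : k →ₗ[ℚ] ℚ) : W →ₗ[ℚ] W :=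
  pr π ∘ₗ (Z.restrictScalars ℚ) ∘ₗ (TensorProduct.mk ℚ k W 1)

theorem coE_apply (Z : End k (k ⊗[ℚ] W)) (π : k →ₗ[ℚ] ℚ) (w : W) :
    coE Z π w = pr π (Z ((1 : k) ⊗ₜ[ℚ] w)) := rfl

theorem pr_smul (π : k →ₗ[ℚ] ℚ) (c : k) (t : k ⊗[ℚ] W) :
    pr π (c • t) = pr (π ∘ₗ LinearMap.mulLeft ℚ c) t := by
  induction t with
  | zero => rw [smul_zero, map_zero, map_zero]
  | add s t hs ht => rw [smul_add, map_add, map_add, hs, ht]
  | tmul r w =>
    rw [TensorProduct.smul_tmul', pr_tmul, pr_tmul]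
    rfl

theorem coE_hodge {Z : End k (k ⊗[ℚ] W)} (hZ : Z ∈ Submodule.span k (HE k per)) :
    ∀ π : k →ₗ[ℚ] ℚ, IsHodgeEnd per (coE Z π) := by
  induction hZ using Submodule.span_induction with
  | zero =>
    intro π
    refine ⟨0, fun w => ?_⟩
    rw [coE_apply, LinearMap.zero_apply, LinearMap.zero_apply, map_zero, map_zero]
  | add Z Z' _ _ h1 h2 =>
    intro π
    obtain ⟨P, hP⟩ := h1 π
    obtain ⟨Q, hQ⟩ := h2 π
    refine ⟨P + Q, fun w => ?_⟩
    rw [LinearMap.add_apply, hP, hQ, ← map_add, coE_apply, coE_apply, coE_apply,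
      LinearMap.add_apply, map_add (pr π)]
  | smul c Z _ h1 =>
    intro π
    obtain ⟨P, hP⟩ := h1 (π ∘ₗ LinearMap.mulLeft ℚ c)
    refine ⟨P, fun w => ?_⟩
    rw [hP, coE_apply, coE_apply, LinearMap.smul_apply, pr_smul]
  | mem Z hZ =>
    intro π
    obtain ⟨P₀, ⟨P, hP⟩, h2⟩ := hZ
    refine ⟨((π 1 : ℚ) : ℂ) • P, fun w => ?_⟩
    have h3 : Z ((1 : k) ⊗ₜ[ℚ] w) = (1 : k) ⊗ₜ[ℚ] P₀ w := h2 w
    rw [LinearMap.smul_apply, hP, coE_apply, h3, pr_tmul]
    have h4 := map_ratCast_smul per ℚ ℂ (π 1) (P₀ w)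
    rw [Rat.cast_id] at h4
    exact h4.symm

theorem pr_baseChange (π : k →ₗ[ℚ] ℚ) (P : W →ₗ[ℚ] W) (t : k ⊗[ℚ] W) :
    pr π (P.baseChange k t) = P (pr π t) := by
  induction t with
  | zero => simp only [map_zero]
  | add s t hs ht => simp only [map_add, hs, ht]
  | tmul r w => rw [LinearMap.baseChange_tmul, pr_tmul, pr_tmul, map_smul]

theorem pr_bil_left (π : k →ₗ[ℚ] ℚ) (t : k ⊗[ℚ] W) (y : W) :
    π (bcb k ω₀ t ((1 : k) ⊗ₜ[ℚ] y)) = ω₀ (pr π t) y := by
  induction t with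
  | zero => simp only [map_zero, LinearMap.zero_apply]
  | add s t hs ht => simp only [map_add, LinearMap.add_apply, hs, ht]
  | tmul r w =>
    rw [bcb_tmul, pr_tmul, map_smul, map_smul, LinearMap.smul_apply, mul_one, smul_eq_mul,
      smul_eq_mul, mul_comm]

theorem pr_bil_right (π : k →ₗ[ℚ] ℚ) (t : k ⊗[ℚ] W) (x : W) :
    π (bcb k ω₀ ((1 : k) ⊗ₜ[ℚ] x) t) = ω₀ x (pr π t) := by
  induction t with
  | zero => simp only [map_zero]
  | add s t hs ht => simp only [map_add, hs, ht]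
  | tmul r w =>
    rw [bcb_tmul, pr_tmul, map_smul, map_smul, one_mul, smul_eq_mul,
      smul_eq_mul, mul_comm]

include hω₀ in
/-- if the Rosati involution is trivial on the centre, the elements of the Lie algebra of the
Mumford-Tate group in the algebra of endomorphisms are scalars -/
theorem scalar_of_rosati (hl : ∀ u, (∀ v, bcb k ω₀ u v = 0) → u = 0)
    (hR : RosatiTrivialOnCentre per ω₀) {Z : End k (k ⊗[ℚ] W)} {μ : k}
    (hX : InLieMT per (incl k W) Z μ) (hZ : Z ∈ Submodule.span k (HE k per)) :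
    Z = (μ / 2) • (1 : End k (k ⊗[ℚ] W)) := by
  have h1 : ∀ x y : W, bcb k ω₀ (Z ((1 : k) ⊗ₜ[ℚ] x)) ((1 : k) ⊗ₜ[ℚ] y) =
      bcb k ω₀ ((1 : k) ⊗ₜ[ℚ] x) (Z ((1 : k) ⊗ₜ[ℚ] y)) := by
    intro x y
    rw [← sub_eq_zero, ← Module.forall_dual_apply_eq_zero_iff ℚ]
    intro π
    rw [map_sub, pr_bil_left, pr_bil_right, sub_eq_zero]
    refine hR (coE Z π) (coE_hodge hZ π) (fun Q hQ w => ?_) x y
    rw [coE_apply, coE_apply, ← pr_baseChange]
    have h2 := LinearMap.congr_fun (lieMT_comm hω₀ hl hX hQ) ((1 : k) ⊗ₜ[ℚ] w)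
    rw [Module.End.mul_apply, Module.End.mul_apply, LinearMap.baseChange_tmul] at h2
    rw [h2]
  have h2 : ∀ x y, bcb k ω₀ (Z x) y = bcb k ω₀ x (Z y) := by
    intro x y
    induction x with
    | zero => simp only [map_zero, LinearMap.zero_apply]
    | add x x' hx hx' => simp only [map_add, LinearMap.add_apply, hx, hx']
    | tmul a x =>
      have h3 : a ⊗ₜ[ℚ] x = a • (1 : k) ⊗ₜ[ℚ] x := by
        rw [TensorProduct.smul_tmul', smul_eq_mul, mul_one]
      rw [h3, map_smul, map_smul, map_smul, LinearMap.smul_apply, LinearMap.smul_apply]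
      congr 1
      induction y with
      | zero => simp only [map_zero]
      | add y y' hy hy' => simp only [map_add, hy, hy']
      | tmul b y =>
        have h4 : b ⊗ₜ[ℚ] y = b • (1 : k) ⊗ₜ[ℚ] y := by
          rw [TensorProduct.smul_tmul', smul_eq_mul, mul_one]
        rw [h4, map_smul, map_smul, map_smul, h1]
  refine LinearMap.ext fun x => ?_
  rw [← sub_eq_zero]
  refine hl _ fun y => ?_
  have h3 := lieMT_bil hX hω₀ x y
  rw [← h2] at h3
  rw [map_sub, LinearMap.sub_apply, LinearMap.smul_apply, Module.End.one_apply, map_smul,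
    LinearMap.smul_apply, smul_eq_mul]
  linear_combination (1 / 2 : k) * h3

end hodge

end Pool.Agent.W5h23.Four
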