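import Mathlib
import Pool.Agent.W5h23.Four.Main

/-!
# Tensors killed by the Lie algebra of the Tate tensors are Tate tensors
-/

set_option autoImplicit false

namespace Pool.Agent.W5h23.Four

open Module TensorProduct Pool.Agent.H204R3.GP Pool.Agent.Y114.RM Pool.Agent.H50.FT
  Pool.Agent.R913.Adj Pool.Agent

section big

variable {k : Type} [Field k] {V : Type} [AddCommGroup V] [Module k V]
  {Γ : Type} [Group Γ] (ρ : Representation k Γ V) (n : ℕ)

/-- the space of multilinear forms -/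
abbrev MF (k V : Type) [Field k] [AddCommGroup V] [Module k V] (n : ℕ) : Type :=
  MultilinearMap k (fun _ : Fin n => V) k

/-- the sum of `V`, the space of the multilinear forms and the trivial representation -/
noncomputable def big : Representation k Γ (V × MF k V n × k) where
  toFun γ := (ρ γ).prodMap
    ((MultilinearMap.compLinearMapₗ (fun _ : Fin n => ρ γ⁻¹)).prodMap (LinearMap.id))
  map_one' := by
    refine LinearMap.ext fun x => ?_
    obtain ⟨v, ψ, c⟩ := x
    change (ρ 1 v, ψ.compLinearMap (fun _ => ρ 1⁻¹), c) = (v, ψ, c)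
    rw [inv_one, map_one]
    rfl
  map_mul' γ δ := by
    refine LinearMap.ext fun x => ?_
    obtain ⟨v, ψ, c⟩ := x
    change (ρ (γ * δ) v, ψ.compLinearMap (fun _ => ρ (γ * δ)⁻¹), c) =
      (ρ γ (ρ δ v), (ψ.compLinearMap (fun _ => ρ δ⁻¹)).compLinearMap (fun _ => ρ γ⁻¹), c)
    rw [mul_inv_rev, map_mul, map_mul]
    rfl

theorem big_apply (γ : Γ) (v : V) (ψ : MF k V n) (c : k) :
    big ρ n γ (v, ψ, c) = (ρ γ v, ψ.compLinearMap (fun _ => ρ γ⁻¹), c) := rfl

/-- a linear form as a tensor -/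
def linT {U : Type} [AddCommGroup U] [Module k U] (g : (U × Dual k U) →ₗ[k] k) : Tensor k U 1 where
  toFun w := g (w 0)
  map_update_add' := by
    intro inst w i x y
    have hi : i = 0 := Subsingleton.elim _ _
    subst hi
    rw [Function.update_self, Function.update_self, Function.update_self, map_add]
  map_update_smul' := by
    intro inst w i c x
    have hi : i = 0 := Subsingleton.elim _ _
    subst hi
    rw [Function.update_self, Function.update_self, map_smul]

/-- the evaluation as a tensor -/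
noncomputable def evT : Tensor k (V × MF k V n × k) (n + 1) :=
  LinearMap.uncurryLeft ((MultilinearMap.compLinearMapₗ (fun _ : Fin n =>
    LinearMap.fst k V (MF k V n × k) ∘ₗ
      LinearMap.fst k (V × MF k V n × k) (Dual k (V × MF k V n × k)))) ∘ₗ
    (LinearMap.fst k (MF k V n) k ∘ₗ LinearMap.snd k V (MF k V n × k) ∘ₗ
      LinearMap.fst k (V × MF k V n × k) (Dual k (V × MF k V n × k))))

theorem evT_apply (w : Fin (n + 1) → (V × MF k V n × k) × Dual k (V × MF k V n × k)) :
    evT n w = (w 0).1.2.1 (fun i => (w i.succ).1.1) := rfl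

/-- the endomorphism attached to a multilinear form -/
noncomputable def eT (φ : MF k V n) : End k (V × MF k V n × k) :=
  LinearMap.inr k V (MF k V n × k) ∘ₗ LinearMap.inl k (MF k V n) k ∘ₗ
    (LinearMap.toSpanSingleton k (MF k V n) φ) ∘ₗ LinearMap.snd k (MF k V n) k ∘ₗ
      LinearMap.snd k V (MF k V n × k)

theorem eT_apply (φ : MF k V n) (v : V) (ψ : MF k V n) (c : k) :
    eT n φ (v, ψ, c) = (0, c • φ, 0) := rfl

end big

section kill

variable {k : Type} [Field k] {V : Type} [AddCommGroup V] [Module k V]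
  {Γ : Type} [Group Γ] {ρ : Representation k Γ V} {n : ℕ}

/-- the restriction to `V` -/
noncomputable def res (X : End k (V × MF k V n × k)) : End k V :=
  LinearMap.fst k V (MF k V n × k) ∘ₗ X ∘ₗ LinearMap.inl k V (MF k V n × k)

theorem res_kills {X : End k (V × MF k V n × k)}
    (hX : ∀ (m : ℕ) (Φ : Tensor k (V × MF k V n × k) m), TateTensor (big ρ n) Φ → KillsTensor X Φ)
    {m : ℕ} {Φ : Tensor k V m} (hΦ : TateTensor ρ Φ) : KillsTensor (res X) Φ := by
  let p : ((V × MF k V n × k) × Dual k (V × MF k V n × k)) →ₗ[k] V × Dual k V :=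
    (LinearMap.fst k V (MF k V n × k)).prodMap (LinearMap.inl k V (MF k V n × k)).dualMap
  have hT : TateTensor (big ρ n) (Φ.compLinearMap (fun _ => p)) := by
    obtain ⟨Δ, hΔ, h⟩ := hΦ
    refine ⟨Δ, hΔ, fun γ hγ w => ?_⟩
    rw [MultilinearMap.compLinearMap_apply, MultilinearMap.compLinearMap_apply]
    refine Eq.trans ?_ (h γ hγ (fun l => p (w l)))
    congr 1
  intro v
  have h1 := hX m _ hT (fun l => ((v l).1, 0, 0) |> fun a => (a, (v l).2 ∘ₗ
    LinearMap.fst k V (MF k V n × k)))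
  rw [← h1]
  refine Finset.sum_congr rfl fun l _ => ?_
  rw [MultilinearMap.compLinearMap_apply]
  congr 1
  funext i
  by_cases hi : i = l
  · subst hi
    rw [Function.update_self, Function.update_self]
    rfl
  · rw [Function.update_of_ne hi, Function.update_of_ne hi]
    rfl

theorem ev_tate : TateTensor (big ρ n) (evT (k := k) (V := V) n) := by
  refine ⟨⊤, inferInstance, fun γ _ w => ?_⟩
  rw [evT_apply, evT_apply]
  change (w 0).1.2.1 (fun i => ρ γ⁻¹ (ρ γ (w i.succ).1.1)) = _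
  have hmi : ∀ x, ρ γ⁻¹ (ρ γ x) = x := fun x => by
    rw [← Module.End.mul_apply, ← map_mul, inv_mul_cancel, map_one, Module.End.one_apply]
  simp only [hmi]

theorem third_tate : TateTensor (big ρ n)
    (linT (LinearMap.snd k (MF k V n) k ∘ₗ LinearMap.snd k V (MF k V n × k) ∘ₗ
      LinearMap.fst k (V × MF k V n × k) (Dual k (V × MF k V n × k)))) :=
  ⟨⊤, inferInstance, fun _ _ _ => rfl⟩

/-- the endomorphism of a killed form commutes with the Lie algebra of the big representation -/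
theorem eT_comm {X : End k (V × MF k V n × k)}
    (hX : ∀ (m : ℕ) (Φ : Tensor k (V × MF k V n × k) m), TateTensor (big ρ n) Φ → KillsTensor X Φ)
    {φ : MF k V n} (hφ : ∀ v, ∑ l, φ (Function.update v l (res X (v l))) = 0) :
    X * eT n φ = eT n φ * X := by
  -- the third component
  have h3 : ∀ x : V × MF k V n × k, (X x).2.2 = 0 := by
    intro x
    have h1 := hX 1 _ third_tate (fun _ => (x, 0))
    rw [Fin.sum_univ_one] at h1
    exact h1
  -- the projection to the middle
  let P : End k (V × MF k V n × k) :=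
    (0 : End k V).prodMap ((LinearMap.id : End k (MF k V n)).prodMap (0 : End k k))
  have hP : X * P = P * X := by
    refine tate_comm (big ρ n) hX (Δ := ⊤) inferInstance fun γ _ => ?_
    refine LinearMap.ext fun x => ?_
    obtain ⟨v, ψ, c⟩ := x
    change ((0 : V), ψ.compLinearMap (fun _ => ρ γ⁻¹), (0 : k)) =
      (ρ γ 0, ψ.compLinearMap (fun _ => ρ γ⁻¹), (0 : k))
    rw [map_zero]
  have h2 : ∀ ψ : MF k V n, X (0, ψ, 0) = (0, (X (0, ψ, 0)).2.1, 0) := by
    intro ψ
    have h4 := LinearMap.congr_fun hP (0, ψ, 0)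
    exact h4
  have h5 : (X (0, φ, 0)).2.1 = 0 := by
    refine MultilinearMap.ext fun v => ?_
    have h4 := hX (n + 1) _ ev_tate
      (Fin.cons (((0 : V), φ, (0 : k)), 0) (fun i => ((v i, 0, 0), 0)))
    rw [Fin.sum_univ_succ] at h4
    simp only [evT_apply, Function.update_self, Fin.cons_zero, Fin.cons_succ, ne_eq,
      Fin.succ_ne_zero, not_false_eq_true, Function.update_of_ne] at h4
    have h6 : ∀ i : Fin n, (Function.update (Fin.cons (((0 : V), φ, (0 : k)), 0)
        (fun i => ((v i, 0, 0), 0)) : Fin (n + 1) → (V × MF k V n × k) × Dual k (V × MF k V n × k))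
        i.succ (lie X ((v i, 0, 0), 0)) 0).1.2.1
        (fun j => (Function.update (Fin.cons (((0 : V), φ, (0 : k)), 0)
        (fun i => ((v i, 0, 0), 0)) : Fin (n + 1) → (V × MF k V n × k) × Dual k (V × MF k V n × k))
        i.succ (lie X ((v i, 0, 0), 0)) j.succ).1.1) =
        φ (Function.update v i (res X (v i))) := by
      intro i
      rw [Function.update_of_ne (Fin.succ_ne_zero i).symm]
      change φ _ = φ _
      congr 1
      funext j
      by_cases hj : j = i
      · subst hj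
        rw [Function.update_self, Function.update_self]
        rfl
      · rw [Function.update_of_ne hj, Function.update_of_ne (fun h => hj (Fin.succ_injective _ h))]
        rfl
    rw [Finset.sum_congr rfl fun i _ => h6 i, hφ v, add_zero] at h4
    exact h4
  refine LinearMap.ext fun x => ?_
  obtain ⟨v, ψ, c⟩ := x
  rw [Module.End.mul_apply, Module.End.mul_apply, eT_apply]
  have h7 : ((0 : V), c • φ, (0 : k)) = c • ((0 : V), φ, (0 : k)) := by
    rw [Prod.smul_mk, Prod.smul_mk, smul_zero, smul_zero]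
  rw [h7, map_smul, h2, h5]
  have h8 : eT n φ (X (v, ψ, c)) = (0, (X (v, ψ, c)).2.2 • φ, 0) := rfl
  rw [h8, h3, zero_smul, Prod.smul_mk, Prod.smul_mk, smul_zero, smul_zero, smul_zero]

end kill

section cont

variable {k : Type} [Field k] {V : Type} [AddCommGroup V] [Module k V] [FiniteDimensional k V]
  {n : ℕ}

/-- the dual basis of the space of multilinear forms -/
noncomputable def eI (I : Fin n → Fin (finrank k V)) : MF k V n :=
  (MultilinearMap.mkPiAlgebra k (Fin n) k).compLinearMap (fun l => (finBasis k V).coord (I l))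

theorem eI_basis (I J : Fin n → Fin (finrank k V)) :
    eI (k := k) (V := V) I (fun l => finBasis k V (J l)) = if I = J then 1 else 0 := by
  unfold eI
  rw [MultilinearMap.compLinearMap_apply, MultilinearMap.mkPiAlgebra_apply]
  have h2 : ∀ l, ((finBasis k V).coord (I l)) (finBasis k V (J l)) =
      if I l = J l then 1 else 0 := by
    intro l
    rw [Basis.coord_apply, Basis.repr_self, Finsupp.single_apply]
    by_cases h : I l = J l
    · rw [if_pos h, if_pos h.symm]
    · rw [if_neg h, if_neg (fun h' => h h'.symm)]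
  rw [Finset.prod_congr rfl (fun l _ => h2 l)]
  by_cases h : I = J
  · rw [if_pos h, h]
    exact Finset.prod_eq_one fun l _ => if_pos rfl
  · rw [if_neg h]
    obtain ⟨l, hl⟩ := Function.ne_iff.1 h
    exact Finset.prod_eq_zero (Finset.mem_univ l) (if_neg hl)

theorem eq_sum_eI (F : MF k V n) : F = ∑ I : Fin n → Fin (finrank k V),
    F (fun l => finBasis k V (I l)) • eI I := by
  refine Basis.ext_multilinear (fun _ => finBasis k V) fun J => ?_
  rw [sum_apply]
  simp only [smul_apply, eI_basis, smul_eq_mul, mul_ite, mul_one, mul_zero,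
    Finset.sum_ite_eq', Finset.mem_univ, if_true]

theorem apply_eq_sum (F : MF k V n) (v : Fin n → V) :
    F v = ∑ I : Fin n → Fin (finrank k V),
      F (fun l => finBasis k V (I l)) * ∏ l, (finBasis k V).coord (I l) (v l) := by
  conv_lhs => rw [eq_sum_eI F]
  rw [sum_apply]
  rfl

end cont

section main

variable {ℓ : ℕ} [Fact ℓ.Prime] {V : Type} [AddCommGroup V] [Module ℚ_[ℓ] V]
  [FiniteDimensional ℚ_[ℓ] V] {Γ : Type} [Group Γ] [TopologicalSpace Γ] [IsTopologicalGroup Γ]
  [CompactSpace Γ] {ρ : Representation ℚ_[ℓ] Γ V} {n : ℕ}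

omit [CompactSpace Γ] in
theorem big_cont (hcont : ∀ (f : Dual ℚ_[ℓ] V) (x : V), Continuous fun γ => f (ρ γ x))
    (f : Dual ℚ_[ℓ] (V × MF ℚ_[ℓ] V n × ℚ_[ℓ])) (x : V × MF ℚ_[ℓ] V n × ℚ_[ℓ]) :
    Continuous fun γ => f (big ρ n γ x) := by
  obtain ⟨v, ψ, c⟩ := x
  have h1 : (fun γ => f (big ρ n γ (v, ψ, c))) = fun γ =>
      f (ρ γ v, 0, 0) + ((∑ I : Fin n → Fin (finrank ℚ_[ℓ] V),
        (∑ J : Fin n → Fin (finrank ℚ_[ℓ] V), ψ (fun l => finBasis ℚ_[ℓ] V (J l)) *
          ∏ l, (finBasis ℚ_[ℓ] V).coord (J l) (ρ γ⁻¹ (finBasis ℚ_[ℓ] V (I l)))) *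
        f (0, eI I, 0)) + f (0, 0, c)) := by
    funext γ
    have h2 : big ρ n γ (v, ψ, c) = (ρ γ v, 0, 0) +
        ((0, ψ.compLinearMap (fun _ => ρ γ⁻¹), 0) + ((0 : V), (0 : MF ℚ_[ℓ] V n), c)) := by
      rw [big_apply]
      simp
    rw [h2, map_add, map_add]
    congr 2
    have h3 : ((0 : V), ψ.compLinearMap (fun _ => ρ γ⁻¹), (0 : ℚ_[ℓ])) =
        (LinearMap.inr ℚ_[ℓ] V (MF ℚ_[ℓ] V n × ℚ_[ℓ]) ∘ₗ LinearMap.inl ℚ_[ℓ] (MF ℚ_[ℓ] V n) ℚ_[ℓ])
          (ψ.compLinearMap (fun _ => ρ γ⁻¹)) := rfl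
    rw [h3, eq_sum_eI (ψ.compLinearMap (fun _ => ρ γ⁻¹)), map_sum, map_sum]
    refine Finset.sum_congr rfl fun I _ => ?_
    rw [map_smul, map_smul, smul_eq_mul, MultilinearMap.compLinearMap_apply,
      apply_eq_sum ψ (fun l => ρ γ⁻¹ (finBasis ℚ_[ℓ] V (I l)))]
    exact congrArg (fun x => x * _) rfl
  rw [h1]
  have h2 : Continuous fun γ => f (ρ γ v, 0, 0) :=
    hcont (f ∘ₗ LinearMap.inl ℚ_[ℓ] V (MF ℚ_[ℓ] V n × ℚ_[ℓ])) v
  refine h2.add (Continuous.add ?_ continuous_const)
  refine continuous_finsetSum _ fun I _ => Continuous.mul ?_ continuous_const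
  refine continuous_finsetSum _ fun J _ => continuous_const.mul ?_
  refine continuous_finsetProd _ fun l _ => ?_
  exact (hcont ((finBasis ℚ_[ℓ] V).coord (J l)) (finBasis ℚ_[ℓ] V (I l))).comp continuous_inv

/-- **Tensors killed by the Lie algebra of the Tate tensors are Tate tensors.** -/
theorem tate_of_killed (hcont : ∀ (f : Dual ℚ_[ℓ] V) (x : V), Continuous fun γ => f (ρ γ x))
    {φ : MF ℚ_[ℓ] V n} (hφ : ∀ X : End ℚ_[ℓ] V, (∀ (m : ℕ) (Φ : Tensor ℚ_[ℓ] V m),
      TateTensor ρ Φ → KillsTensor X Φ) → ∀ v, ∑ l, φ (Function.update v l (X (v l))) = 0) :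
    ∃ Δ : Subgroup Γ, Δ.FiniteIndex ∧ ∀ s ∈ Δ, ∀ v, φ (fun l => ρ s (v l)) = φ v := by
  obtain ⟨L, hL, hLie, hAd, -⟩ := Y41.RM.lieL' ℚ_[ℓ] (V × MF ℚ_[ℓ] V n × ℚ_[ℓ]) Γ (big ρ n)
  obtain ⟨Δ, hΔ, hcΔ⟩ := exists_commuting (big ρ n) (big_cont hcont) (comm L) (comm_conj hAd)
    (comm_order hL)
  have hC : eT n φ ∈ comm L := fun X hX => eT_comm ((hL X).1 hX).2
    (hφ _ fun m Φ hΦ => res_kills ((hL X).1 hX).2 hΦ)
  refine ⟨Δ, hΔ, fun s hs v => ?_⟩
  have h1 := LinearMap.congr_fun (hcΔ s hs _ hC) ((0 : V), (0 : MF ℚ_[ℓ] V n), (1 : ℚ_[ℓ]))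
  rw [Module.End.mul_apply, Module.End.mul_apply, eT_apply, big_apply, big_apply, eT_apply,
    one_smul] at h1
  have h2 : φ.compLinearMap (fun _ => ρ s⁻¹) = φ := congrArg (fun x => x.2.1) h1
  have h3 := congrArg (fun F : MF ℚ_[ℓ] V n => F (fun l => ρ s (v l))) h2
  simp only [MultilinearMap.compLinearMap_apply] at h3
  rw [← h3]
  congr 1
  funext l
  rw [← Module.End.mul_apply, ← map_mul, inv_mul_cancel, map_one, Module.End.one_apply]

end main

end Pool.Agent.W5h23.Four
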